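import Pool.Agent.H87.AQ.Targets

/-!
# B7D: the coprime affine reduction with a condition on the defect groups (after helper97)
-/

open scoped Classical

namespace AMq

open AMx

theorem b7d (hF3 : T_F3) (hB3 : T_B3) (hB4 : T_B4) (hB5 : T_B5) (hB6 : T_B6) : T_B7D := by
  intro l _ 𝔪 hmax hl 𝓓 hcl X T _ _ _ _ P hF hX D χ ψ hbr hD
  obtain ⟨F⟩ := hF
  obtain ⟨hχ, hψ, hdef, hdefψ, hcorr⟩ := hbr
  obtain ⟨F', hloc, heq⟩ := hB5 l X T F D hdef.1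
  obtain ⟨hI1, -, -⟩ := hF3 l X T F
  obtain ⟨hI1', -, -⟩ := hF3 l _ _ F'
  have h1 := hB3 l 𝔪 hmax hl X T F χ hχ D hdef
  have h2 := hB3 l 𝔪 hmax hl _ _ F' ψ hψ _ hdefψ
  have h3 := hB6 l 𝔪 hmax hl X T F D F' hloc hdef.1 χ ψ hχ hψ hdefψ hcorr
  have h4 := hB4 l 𝔪 hmax hl X T F χ hχ D hdef.1
  have h5 := hB4 l 𝔪 hmax hl _ _ F' ψ hψ _ hdefψ.1
  rw [heq] at h2 h5
  have hDm : 𝓓 (D.map F.io) :=
    hcl.iso D (D.map F.io) ⟨D.equivMapOfInjective F.io F.inj⟩ hD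
  have h6 := hX (D.map F.io) (F.ind χ) (F'.ind ψ) ⟨(hI1 χ hχ).1, (hI1' ψ hψ).1, h1, h2, h3⟩ hDm
  rw [h4, h5] at h6
  exact h6

end AMq
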