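import Pool.Agent.H87.AQ.Targets

/-!
# W6: existence of the wreath product with a cyclic group
-/

open scoped Classical

namespace AMq

namespace W6

/-- the cyclic shifts -/
def sh (q : ℕ) (H : Type) [Group H] (a : ZMod q) : MulAut (ZMod q → H) where
  toFun f i := f (i + a)
  invFun f i := f (i - a)
  left_inv f := by funext i; simp
  right_inv f := by funext i; simp
  map_mul' f g := rfl

/-- the action of the cyclic group by shifts -/
def act (q : ℕ) (H : Type) [Group H] : Multiplicative (ZMod q) →* MulAut (ZMod q → H) where
  toFun a := sh q H a.toAdd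
  map_one' := by
    ext f i
    simp [sh]
  map_mul' a b := by
    apply MulEquiv.ext
    intro f
    funext i
    change f (i + (a * b).toAdd) = f (i + a.toAdd + b.toAdd)
    rw [toAdd_mul, add_assoc]

/-- the wreath product -/
abbrev Wp (q : ℕ) (H : Type) [Group H] : Type :=
  SemidirectProduct (ZMod q → H) (Multiplicative (ZMod q)) (act q H)

/-- the wreath product as an extension -/
def cy (q : ℕ) (H : Type) [Group H] : Cy q (Wp q H) (ZMod q → H) where
  io := SemidirectProduct.inl
  inj := SemidirectProduct.inl_injective
  p := SemidirectProduct.rightHom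
  ker := by
    intro x
    constructor
    · intro h
      refine ⟨x.left, ?_⟩
      apply SemidirectProduct.ext
      · simp
      · rw [SemidirectProduct.right_inl]
        exact h.symm
    · rintro ⟨k, rfl⟩
      exact SemidirectProduct.rightHom_inl k
  s := SemidirectProduct.inr (Multiplicative.ofAdd 1)
  ps := SemidirectProduct.rightHom_inr _
  sg := sh q H 1
  cj := by
    intro k
    have h := SemidirectProduct.inl_aut (φ := act q H) (Multiplicative.ofAdd (1 : ZMod q)) k
    rw [map_inv] at h
    exact h.symm

end W6

theorem w6 : T_W6 := by
  intro q _ H _ _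
  haveI : Fintype (Multiplicative (ZMod q)) := inferInstance
  exact ⟨W6.Wp q H, inferInstance,
    Fintype.ofEquiv ((ZMod q → H) × Multiplicative (ZMod q)) SemidirectProduct.equivProd.symm,
    W6.cy q H, fun f i => rfl⟩

end AMq
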